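import Pool.Agent.Lib.MP_e1f7e2_al.SU.H62.Tools

set_option autoImplicit false

/-! Module D22. -/

open MvPolynomial

namespace Pool.Agent.Lib.MP_e1f7e2_al.SU.H62

section

variable {K : Type*} [Field K] {w : Fin 3 → ℝ}

/-- upper case: `h > 2γ` -/
theorem d22_up (F : Facts K w) (S : SuAll K w) (hI : InvStatement K w) (hK : KFactStatement K w)
    {f1 g2 f3 : MvPolynomial (Fin 3) K} {p : ℕ} {γ : ℝ} (hfr : Fr f1 g2 f3) (hγ : 0 < γ)
    (hpo : Odd p) (hp3 : 3 ≤ p) (h1 : dg w f1 = p * γ) (h3 : dg w f3 = 2 * γ)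
    (hmin : ∀ R : MvPolynomial (Fin 2) K, dg w g2 ≤ dg w (g2 + ev R f1 f3))
    (hlt : dg w g2 < p * γ) (hlo : (p - 2) * γ < dg w g2)
    (hb2 : br w f1 f3 < 2 * γ)
    (hB1 : p * γ + br w f1 f3 ≤ br w g2 f3)
    (hB3 : br w f1 g2 = (p - 2) * γ + br w g2 f3) (hup : 2 * γ < dg w g2) :
    ¬ Red w (sp3 f1 g2 f3) := by
  intro hred
  have hb2p : 0 < br w f1 f3 := F.b.bpos f1 f3 g2 hfr.swap23
  have hpR : (3 : ℝ) ≤ p := by exact_mod_cast hp3
  have hpos2 : 0 < dg w g2 := by linarith
  have hA : ((p : ℝ) - 2) * γ = p * γ - 2 * γ := by ring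
  have hA3 : 3 * γ ≤ p * γ := by nlinarith
  have hA0 : 0 < (p : ℝ) * γ := by linarith
  rw [hA] at hlo hB3
  have hgood : Good w f1 g2 f3 := ⟨hfr, by rw [h1]; exact hlt, by rw [h3]; exact hup⟩
  -- no multiple of `2γ`
  have hnm : ∀ n : ℕ, dg w g2 ≠ n * (2 * γ) := by
    intro n hn
    exact min_ne_pow F.d hpos2 hmin 0 n (by rw [hn, h3]; simp)
  rcases hI f1 g2 f3 hgood hred with h | ⟨Q, hQ, -⟩ | ⟨c, P, hP, -⟩ | ⟨c1, c2, P, hP, -⟩ |
    ⟨c1, c2, c3, a, P, γ', hk, -⟩
  · -- base
    have := F.b.sgle g2 f1 f3 hfr.swap12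
    rw [h1, h3] at h
    linarith
  · -- type 1
    have hQd := dg_of_lt F.d hQ
    have hbp : 0 < br w g2 f3 := by linarith
    by_cases hd : dg w (ev Q g2 f3) < vdg (dg w g2) (dg w f3) Q
    · obtain ⟨p', q', γ', hγ', hp', hq', hcop, hf, hg, -, hlow⟩ := su_low S hbp hd
      rcases Nat.lt_or_ge q' 2 with hq2 | hq2
      · have : q' = 1 := by omega
        subst this
        apply hnm p'
        rw [hf, ← h3, hg]; simp
      rcases Nat.lt_or_ge p' 2 with hp2 | hp2
      · have : p' = 1 := by omega
        subst this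
        have hq'' : (2 : ℝ) ≤ q' := by exact_mod_cast hq2
        have hf' : dg w g2 = γ' := by rw [hf]; simp
        have hg' : 2 * γ = q' * γ' := by rw [← h3, hg]
        have : 2 * γ' ≤ q' * γ' := mul_le_mul_of_nonneg_right hq'' hγ'.le
        linarith
      · have := hlow hp2 hq2
        rw [hQd, h1] at this
        linarith
    · obtain ⟨i, j, hij⟩ := nondeg F.p F.d hd (by rw [hQd, h1]; positivity)
      rw [hQd, h1, h3] at hij
      have hjR : (0 : ℝ) ≤ j := by positivity
      rcases Nat.eq_zero_or_pos i with hi | hi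
      · subst hi
        have h4 : (2 * (j : ℝ)) * γ = p * γ := by push_cast at hij; linarith
        have h5 : (2 * (j : ℝ)) = p := mul_right_cancel₀ hγ.ne' h4
        have h6 : 2 * j = p := by exact_mod_cast h5
        obtain ⟨k, hk⟩ := hpo
        omega
      · have hi' : (1 : ℝ) ≤ i := by exact_mod_cast hi
        rcases Nat.eq_zero_or_pos j with hj | hj
        · subst hj
          rcases Nat.lt_or_ge i 2 with hi2 | hi2
          · have : i = 1 := by omega
            subst this
            push_cast at hij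
            linarith
          · have hi2' : (2 : ℝ) ≤ i := by exact_mod_cast hi2
            have h4 : 2 * dg w g2 ≤ i * dg w g2 := mul_le_mul_of_nonneg_right hi2' hpos2.le
            push_cast at hij
            linarith
        · have hj' : (1 : ℝ) ≤ j := by exact_mod_cast hj
          have h4 : 1 * dg w g2 ≤ i * dg w g2 := mul_le_mul_of_nonneg_right hi' hpos2.le
          have h5 : 1 * (2 * γ) ≤ j * (2 * γ) := mul_le_mul_of_nonneg_right hj' (by linarith)
          linarith
  · -- type 2
    have hPd := dg_of_lt F.d hP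
    by_cases hc : c = 0
    · subst hc
      have := hmin P
      simp only [map_zero, zero_mul, add_zero] at hP
      linarith
    have hdeg : dg w (f1 + C c * g2) = p * γ := by
      rw [F.d.add_left _ _ (by rw [F.d.Cmul c _ hc, h1]; exact hlt), h1]
    have hbr : br w (f1 + C c * g2) f3 = br w g2 f3 := by
      rw [br_def, D_add, D_Cmul, cr_add_left, cr_smul_left]
      have e1 : dv w ((C c : MvPolynomial (Fin 3) K) • cr (D g2) (D f3)) = br w g2 f3 :=
        F.v.Csmul _ _ hc
      rw [F.v.add_right _ _ (by rw [e1]; change br w f1 f3 < _; linarith), e1]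
    have hbp : 0 < br w (f1 + C c * g2) f3 := by rw [hbr]; linarith
    by_cases hd : dg w (ev P (f1 + C c * g2) f3) < vdg (dg w (f1 + C c * g2)) (dg w f3) P
    · obtain ⟨p', q', γ', hγ', hp', hq', hcop, hf, hg, hlow, -⟩ := su_low S hbp hd
      have hcp : Nat.Coprime p 2 := (Nat.coprime_two_right).mpr hpo
      obtain ⟨rfl, rfl, rfl⟩ := coprime_pair hγ hγ' (by rw [← hdeg, hf])
        (by rw [← hg, h3]; simp) hcp hcop (by norm_num) hq'
      rw [hbr] at hlow
      have h5 : ((p' : ℝ) * (2 : ℕ) - p' - (2 : ℕ)) * γ' = p' * γ' - 2 * γ' := by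
        push_cast; ring
      rw [h5] at hlow
      have h6 := hlow (by linarith)
      rw [hPd] at h6
      linarith
    · obtain ⟨i, j, hij⟩ := nondeg F.p F.d hd (by rw [hPd]; linarith)
      rw [hPd, hdeg, h3] at hij
      rcases Nat.eq_zero_or_pos i with hi | hi
      · subst hi
        apply hnm j
        push_cast at hij
        linarith
      · have hi' : (1 : ℝ) ≤ i := by exact_mod_cast hi
        have hjR : (0 : ℝ) ≤ j := by positivity
        have h7 : 1 * ((p : ℝ) * γ) ≤ i * (p * γ) := mul_le_mul_of_nonneg_right hi' hA0.le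
        have h8 : 0 ≤ (j : ℝ) * (2 * γ) := by positivity
        linarith
  · -- type 3
    have hPd := dg_of_lt F.d hP
    have hd1 : dg w (f1 + C c1 * f3) = p * γ := by
      rw [F.d.add_left _ _ (lt_of_le_of_lt (F.d.Cmul_le c1 f3) (by rw [h1, h3]; linarith)), h1]
    have hd2 : dg w (g2 + C c2 * f3) = dg w g2 := by
      rw [F.d.add_left _ _ (lt_of_le_of_lt (F.d.Cmul_le c2 f3) (by rw [h3]; exact hup))]
    have hbr : br w (f1 + C c1 * f3) (g2 + C c2 * f3) = p * γ - 2 * γ + br w g2 f3 := by
      have e0 : cr (D (f1 + C c1 * f3)) (D (g2 + C c2 * f3)) =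
          cr (D f1) (D g2) + ((C c2 : MvPolynomial (Fin 3) K) • cr (D f1) (D f3) +
            (C c1 : MvPolynomial (Fin 3) K) • cr (D f3) (D g2)) := by
        rw [D_add, D_Cmul, D_add, D_Cmul, cr_add_left, cr_add_right, cr_add_right, cr_smul_left,
          cr_smul_right, cr_smul_left, cr_smul_right, cr_self]
        simp only [smul_zero, add_zero]
        abel
      have e1 : dv w ((C c2 : MvPolynomial (Fin 3) K) • cr (D f1) (D f3)) ≤ br w f1 f3 := by
        have := F.v.smul_le (C c2) (cr (D f1) (D f3))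
        rw [F.d.const] at this
        change _ ≤ 0 + br w f1 f3 at this
        linarith
      have e2 : dv w ((C c1 : MvPolynomial (Fin 3) K) • cr (D f3) (D g2)) ≤ br w g2 f3 := by
        have := F.v.smul_le (C c1) (cr (D f3) (D g2))
        rw [F.d.const] at this
        change _ ≤ 0 + br w f3 g2 at this
        rw [F.b.comm f3 g2] at this
        linarith
      rw [br_def, e0, F.v.add_left, ← hB3]
      · rfl
      · have := F.v.add_le ((C c2 : MvPolynomial (Fin 3) K) • cr (D f1) (D f3))
          ((C c1 : MvPolynomial (Fin 3) K) • cr (D f3) (D g2))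
        refine lt_of_le_of_lt this (max_lt ?_ ?_)
        · refine lt_of_le_of_lt e1 ?_
          change _ < br w f1 g2
          linarith
        · refine lt_of_le_of_lt e2 ?_
          change _ < br w f1 g2
          linarith
    have hbp : 0 < br w (f1 + C c1 * f3) (g2 + C c2 * f3) := by rw [hbr]; linarith
    by_cases hd : dg w (ev P (f1 + C c1 * f3) (g2 + C c2 * f3)) <
        vdg (dg w (f1 + C c1 * f3)) (dg w (g2 + C c2 * f3)) P
    · obtain ⟨p', q', γ', hγ', hp', hq', hcop, hf, hg, -, hlow⟩ := su_low S hbp hd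
      rw [hd1] at hf
      rw [hd2] at hg
      rcases Nat.lt_or_ge q' 2 with hq2 | hq2
      · have : q' = 1 := by omega
        subst this
        have hg' : dg w g2 = γ' := by rw [hg]; simp
        rcases Nat.lt_or_ge p' 2 with hp2 | hp2
        · have : p' = 1 := by omega
          subst this
          push_cast at hf
          linarith
        · have hp2' : (2 : ℝ) ≤ p' := by exact_mod_cast hp2
          rw [← hg'] at hf
          have h4 : 2 * dg w g2 ≤ p' * dg w g2 := mul_le_mul_of_nonneg_right hp2' hpos2.le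
          linarith
      rcases Nat.lt_or_ge p' 2 with hp2 | hp2
      · have : p' = 1 := by omega
        subst this
        have hq'' : (2 : ℝ) ≤ q' := by exact_mod_cast hq2
        have h4 : 2 * γ' ≤ q' * γ' := mul_le_mul_of_nonneg_right hq'' hγ'.le
        push_cast at hf
        linarith
      · have := hlow hp2 hq2
        rw [hPd, hbr, h3] at this
        linarith
    · obtain ⟨i, j, hij⟩ := nondeg F.p F.d hd (by rw [hPd, h3]; positivity)
      rw [hPd, hd1, hd2, h3] at hij
      have hiR : (0 : ℝ) ≤ i := by positivity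
      have hjR : (0 : ℝ) ≤ j := by positivity
      rcases Nat.eq_zero_or_pos i with hi | hi
      · rcases Nat.eq_zero_or_pos j with hj | hj
        · subst hi; subst hj
          push_cast at hij
          linarith
        · have hj' : (1 : ℝ) ≤ j := by exact_mod_cast hj
          have h4 : 1 * dg w g2 ≤ j * dg w g2 := mul_le_mul_of_nonneg_right hj' hpos2.le
          subst hi
          push_cast at hij
          linarith
      · have hi' : (1 : ℝ) ≤ i := by exact_mod_cast hi
        have h4 : 1 * ((p : ℝ) * γ) ≤ i * (p * γ) := mul_le_mul_of_nonneg_right hi' hA0.le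
        have h5 := mul_nonneg hjR hpos2.le
        linarith
  · -- K
    have hkf := hK _ _ _ _ _ _ hk
    have hε := hkf.εpos
    have hγ' := hk.hγ
    have k1 := hkf.b1
    have k2 := hkf.b2
    set ε := br w (f1 + C c1 * g2 + C c2 * f3 + C a * f3 ^ 2) (g2 + C c3 * f3)
    have e1 : br w (g2 + C c3 * f3) f3 = br w g2 f3 := by
      rw [br_def, D_add, D_Cmul, cr_add_left, cr_smul_left, cr_self, smul_zero, add_zero]
      rfl
    have e2 : cr (D (f1 + C c1 * g2 + C c2 * f3)) (D f3) =
        cr (D f1) (D f3) + (C c1 : MvPolynomial (Fin 3) K) • cr (D g2) (D f3) := by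
      rw [D_add, D_add, D_Cmul, D_Cmul, cr_add_left, cr_add_left, cr_smul_left, cr_smul_left,
        cr_self, smul_zero, add_zero]
    rw [e1] at k1
    rw [br_def, e2] at k2
    by_cases hc : c1 = 0
    · subst hc
      rw [map_zero, zero_smul, add_zero] at k2
      change br w f1 f3 = _ at k2
      linarith
    · have e3 : dv w ((C c1 : MvPolynomial (Fin 3) K) • cr (D g2) (D f3)) = br w g2 f3 :=
        F.v.Csmul _ _ hc
      rw [F.v.add_right _ _ (by rw [e3]; change br w f1 f3 < _; linarith), e3] at k2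
      linarith

/-- lower case: `γ < h < 2γ`, `p = 3` -/
theorem d22_down (F : Facts K w) (S : SuAll K w) (hI : InvStatement K w)
    (hK : KFactStatement K w) (hBs : BstarStatement K w)
    {f1 f3 g2 : MvPolynomial (Fin 3) K} {γ : ℝ} (hfr : Fr f1 f3 g2) (hγ : 0 < γ)
    (h1 : dg w f1 = 3 * γ) (h3 : dg w f3 = 2 * γ)
    (hmin : ∀ R : MvPolynomial (Fin 2) K, dg w g2 ≤ dg w (g2 + ev R f1 f3))
    (hb2 : br w f1 f3 < 2 * γ) (hlo : γ + br w f1 f3 ≤ dg w g2)
    (hB1 : 3 * γ + br w f1 f3 ≤ br w f3 g2) (hB3 : br w f1 g2 = γ + br w f3 g2)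
    (hdn : dg w g2 < 2 * γ)
    (hnb : ∀ V', Adj (sp3 f1 f3 g2) V' → Red w V') :
    ¬ Red w (sp3 f1 f3 g2) := by
  intro hred
  have hb2p : 0 < br w f1 f3 := F.b.bpos f1 f3 g2 hfr
  have hpos2 : 0 < dg w g2 := by linarith
  have hgood : Good w f1 f3 g2 := ⟨hfr, by rw [h1, h3]; linarith, by rw [h3]; exact hdn⟩
  rcases hI f1 f3 g2 hgood hred with h | ⟨Q, hQ, -⟩ | ⟨c, P, hP, -⟩ | ⟨c1, c2, P, hP, -⟩ |
    ⟨c1, c2, c3, a, P, γ', hk, -⟩
  · -- base
    have := F.b.sgle g2 f1 f3 hfr.rot'
    rw [h1, h3] at h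
    linarith
  · -- type 1
    have hQd := dg_of_lt F.d hQ
    have hbp : 0 < br w f3 g2 := by linarith
    have hh : 2 * dg w g2 = 3 * γ := by
      by_cases hd : dg w (ev Q f3 g2) < vdg (dg w f3) (dg w g2) Q
      · exfalso
        obtain ⟨p', q', γ', hγ', hp', hq', hcop, hf, hg, -, hlow⟩ := su_low S hbp hd
        rcases Nat.lt_or_ge q' 2 with hq2 | hq2
        · have : q' = 1 := by omega
          subst this
          have hg' : dg w g2 = γ' := by rw [hg]; simp
          rcases Nat.lt_or_ge p' 2 with hp2 | hp2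
          · have : p' = 1 := by omega
            subst this
            push_cast at hf
            linarith
          · have hp2' : (2 : ℝ) ≤ p' := by exact_mod_cast hp2
            have h4 : 2 * γ' ≤ p' * γ' := mul_le_mul_of_nonneg_right hp2' hγ'.le
            linarith
        rcases Nat.lt_or_ge p' 2 with hp2 | hp2
        · have : p' = 1 := by omega
          subst this
          have hq'' : (2 : ℝ) ≤ q' := by exact_mod_cast hq2
          have h4 : 2 * γ' ≤ q' * γ' := mul_le_mul_of_nonneg_right hq'' hγ'.le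
          push_cast at hf
          linarith
        · have := hlow hp2 hq2
          rw [hQd, h1] at this
          linarith
      · obtain ⟨i, j, hij⟩ := nondeg F.p F.d hd (by rw [hQd, h1]; positivity)
        rw [hQd, h1, h3] at hij
        have hjR : (0 : ℝ) ≤ j := by positivity
        rcases Nat.lt_or_ge i 2 with hi2 | hi2
        · rcases Nat.eq_zero_or_pos i with hi | hi
          · subst hi
            rcases Nat.lt_or_ge j 3 with hj3 | hj3
            · interval_cases j
              · push_cast at hij; linarith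
              · push_cast at hij; linarith
              · push_cast at hij; linarith
            · have hj' : (3 : ℝ) ≤ j := by exact_mod_cast hj3
              have h4 : 3 * dg w g2 ≤ j * dg w g2 := mul_le_mul_of_nonneg_right hj' hpos2.le
              push_cast at hij; linarith
          · have : i = 1 := by omega
            subst this
            rcases Nat.eq_zero_or_pos j with hj | hj
            · subst hj
              push_cast at hij; linarith
            · have hj' : (1 : ℝ) ≤ j := by exact_mod_cast hj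
              have h4 : 1 * dg w g2 ≤ j * dg w g2 := mul_le_mul_of_nonneg_right hj' hpos2.le
              push_cast at hij; linarith
        · have hi' : (2 : ℝ) ≤ i := by exact_mod_cast hi2
          have h4 : 2 * (2 * γ) ≤ i * (2 * γ) := mul_le_mul_of_nonneg_right hi' (by linarith)
          have h5 := mul_nonneg hjR hpos2.le
          linarith
    -- take `h1` minimal
    obtain ⟨h, ⟨R, rfl⟩, hm⟩ := F.d.minim {x | ∃ R : MvPolynomial (Fin 2) K, x = f1 + ev R f3 g2}
      ⟨_, Q, rfl⟩
    have hle := hm _ ⟨Q, rfl⟩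
    have hadj : Red w (sp3 (f1 + ev R f3 g2) f3 g2) := hnb _ (adj1 hfr R)
    obtain ⟨P, hP, -⟩ := hBs f1 f3 g2 _ R γ hfr hγ h1 h3 (by linarith) (by linarith) (by linarith)
      hB3 rfl (fun R' => hm _ ⟨R + R', by rw [ev_add]; ring⟩) (by linarith) hadj
    have := hmin P
    linarith
  · -- type 2
    have hPd := dg_of_lt F.d hP
    have hdeg : dg w (f1 + C c * f3) = 3 * γ := by
      rw [F.d.add_left _ _ (lt_of_le_of_lt (F.d.Cmul_le c f3) (by rw [h1, h3]; linarith)), h1]
    have hbr : br w (f1 + C c * f3) g2 = γ + br w f3 g2 := by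
      rw [br_def, D_add, D_Cmul, cr_add_left, cr_smul_left]
      have e1 : dv w ((C c : MvPolynomial (Fin 3) K) • cr (D f3) (D g2)) ≤ br w f3 g2 := by
        have := F.v.smul_le (C c) (cr (D f3) (D g2))
        rw [F.d.const] at this
        change _ ≤ 0 + br w f3 g2 at this
        linarith
      rw [F.v.add_left _ _ (lt_of_le_of_lt e1 (by change _ < br w f1 g2; linarith))]
      exact hB3
    have hbp : 0 < br w (f1 + C c * f3) g2 := by rw [hbr]; linarith
    by_cases hd : dg w (ev P (f1 + C c * f3) g2) < vdg (dg w (f1 + C c * f3)) (dg w g2) P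
    · obtain ⟨p', q', γ', hγ', hp', hq', hcop, hf, hg, hlow1, hlow⟩ := su_low S hbp hd
      rw [hdeg] at hf
      rw [hPd, h3, hbr] at hlow hlow1
      rcases Nat.lt_or_ge q' 2 with hq2 | hq2
      · have : q' = 1 := by omega
        subst this
        have hg' : dg w g2 = γ' := by rw [hg]; simp
        have e : ((p' : ℝ) * (1 : ℕ) - p' - (1 : ℕ)) * γ' = - γ' := by push_cast; ring
        rw [e] at hlow1
        have := hlow1 (by linarith)
        linarith
      rcases Nat.lt_or_ge p' 2 with hp2 | hp2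
      · have : p' = 1 := by omega
        subst this
        have hq'' : (2 : ℝ) ≤ q' := by exact_mod_cast hq2
        have h4 : 2 * γ' ≤ q' * γ' := mul_le_mul_of_nonneg_right hq'' hγ'.le
        push_cast at hf
        linarith
      · have := hlow hp2 hq2
        linarith
    · obtain ⟨i, j, hij⟩ := nondeg F.p F.d hd (by rw [hPd, h3]; linarith)
      rw [hPd, hdeg, h3] at hij
      have hjR : (0 : ℝ) ≤ j := by positivity
      rcases Nat.eq_zero_or_pos i with hi | hi
      · subst hi
        rcases Nat.lt_or_ge j 2 with hj2 | hj2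
        · interval_cases j
          · push_cast at hij; linarith
          · push_cast at hij; linarith
        · have hj' : (2 : ℝ) ≤ j := by exact_mod_cast hj2
          have h4 : 2 * dg w g2 ≤ j * dg w g2 := mul_le_mul_of_nonneg_right hj' hpos2.le
          push_cast at hij; linarith
      · have hi' : (1 : ℝ) ≤ i := by exact_mod_cast hi
        have h4 : 1 * (3 * γ) ≤ i * (3 * γ) := mul_le_mul_of_nonneg_right hi' (by linarith)
        have h5 := mul_nonneg hjR hpos2.le
        linarith
  · -- type 3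
    have hPd := dg_of_lt F.d hP
    by_cases hcc : c1 = 0 ∧ c2 = 0
    · obtain ⟨rfl, rfl⟩ := hcc
      have := hmin P
      simp only [map_zero, zero_mul, add_zero] at hP
      linarith
    have hd1 : dg w (f1 + C c1 * g2) = 3 * γ := by
      rw [F.d.add_left _ _ (lt_of_le_of_lt (F.d.Cmul_le c1 g2) (by rw [h1]; linarith)), h1]
    have hd2 : dg w (f3 + C c2 * g2) = 2 * γ := by
      rw [F.d.add_left _ _ (lt_of_le_of_lt (F.d.Cmul_le c2 g2) (by rw [h3]; exact hdn)), h3]
    have e0 : cr (D (f1 + C c1 * g2)) (D (f3 + C c2 * g2)) =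
        (C c2 : MvPolynomial (Fin 3) K) • cr (D f1) (D g2) + (cr (D f1) (D f3) -
          (C c1 : MvPolynomial (Fin 3) K) • cr (D f3) (D g2)) := by
      rw [D_add, D_Cmul, D_add, D_Cmul, cr_add_left, cr_add_right, cr_add_right, cr_smul_left,
        cr_smul_right, cr_smul_left, cr_smul_right, cr_self, cr_anti (D g2) (D f3)]
      simp only [smul_zero, add_zero, smul_neg]
      abel
    have e2 : dv w ((C c1 : MvPolynomial (Fin 3) K) • cr (D f3) (D g2)) ≤ br w f3 g2 := by
      have := F.v.smul_le (C c1) (cr (D f3) (D g2))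
      rw [F.d.const] at this
      change _ ≤ 0 + br w f3 g2 at this
      linarith
    have hbr : br w f3 g2 ≤ br w (f1 + C c1 * g2) (f3 + C c2 * g2) := by
      by_cases hc2 : c2 = 0
      · have hc1 : c1 ≠ 0 := fun h => hcc ⟨h, hc2⟩
        have e3 : dv w ((C c1 : MvPolynomial (Fin 3) K) • cr (D f3) (D g2)) = br w f3 g2 :=
          F.v.Csmul _ _ hc1
        rw [br_def (f1 + C c1 * g2), e0, hc2, map_zero, zero_smul, zero_add,
          F.v.sub_right _ _ (by rw [e3]; change br w f1 f3 < _; linarith), e3]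
      · have e3 : dv w ((C c2 : MvPolynomial (Fin 3) K) • cr (D f1) (D g2)) = br w f1 g2 :=
          F.v.Csmul _ _ hc2
        rw [br_def (f1 + C c1 * g2), e0, F.v.add_left, e3]
        · linarith
        · rw [e3]
          have := F.v.sub_le (cr (D f1) (D f3))
            ((C c1 : MvPolynomial (Fin 3) K) • cr (D f3) (D g2))
          refine lt_of_le_of_lt this (max_lt ?_ ?_)
          · change br w f1 f3 < _
            linarith
          · refine lt_of_le_of_lt e2 ?_
            linarith
    have hbp : 0 < br w (f1 + C c1 * g2) (f3 + C c2 * g2) := by linarith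
    by_cases hd : dg w (ev P (f1 + C c1 * g2) (f3 + C c2 * g2)) <
        vdg (dg w (f1 + C c1 * g2)) (dg w (f3 + C c2 * g2)) P
    · obtain ⟨p', q', γ', hγ', hp', hq', hcop, hf, hg, hlow1, hlow⟩ := su_low S hbp hd
      obtain ⟨rfl, rfl, rfl⟩ := coprime_pair (p := 3) (q := 2) hγ hγ'
        (by rw [← hf, hd1]; norm_num) (by rw [← hg, hd2]; norm_num) (by norm_num) hcop
        (by norm_num) hq'
      have := hlow (by norm_num) (by norm_num)
      linarith
    · obtain ⟨i, j, hij⟩ := nondeg F.p F.d hd (by rw [hPd]; linarith)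
      rw [hPd, hd1, hd2] at hij
      have hiR : (0 : ℝ) ≤ i := by positivity
      have hjR : (0 : ℝ) ≤ j := by positivity
      rcases Nat.eq_zero_or_pos i with hi | hi
      · rcases Nat.eq_zero_or_pos j with hj | hj
        · subst hi; subst hj
          push_cast at hij
          linarith
        · have hj' : (1 : ℝ) ≤ j := by exact_mod_cast hj
          have h4 : 1 * (2 * γ) ≤ j * (2 * γ) := mul_le_mul_of_nonneg_right hj' (by linarith)
          subst hi
          push_cast at hij
          linarith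
      · have hi' : (1 : ℝ) ≤ i := by exact_mod_cast hi
        have h4 : 1 * (3 * γ) ≤ i * (3 * γ) := mul_le_mul_of_nonneg_right hi' (by linarith)
        have h5 : 0 ≤ (j : ℝ) * (2 * γ) := by positivity
        linarith
  · -- K
    have hkf := hK _ _ _ _ _ _ hk
    have hε := hkf.εpos
    have hγ' := hk.hγ
    have k1 := hkf.b1
    have k3 := hkf.b3
    have hh2 := hk.h2
    set ε := br w (f1 + C c1 * f3 + C c2 * g2 + C a * g2 ^ 2) (f3 + C c3 * g2)
    have hd2 : dg w (f3 + C c3 * g2) = 2 * γ := by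
      rw [F.d.add_left _ _ (lt_of_le_of_lt (F.d.Cmul_le c3 g2) (by rw [h3]; exact hdn)), h3]
    have hγγ : γ' = γ := by linarith
    subst hγγ
    have e1 : br w (f3 + C c3 * g2) g2 = br w f3 g2 := by
      rw [br_def, D_add, D_Cmul, cr_add_left, cr_smul_left, cr_self, smul_zero, add_zero]
      rfl
    have e2 : cr (D (f1 + C c1 * f3 + C c2 * g2)) (D (f3 + C c3 * g2)) =
        cr (D f1) (D f3) + ((C c3 : MvPolynomial (Fin 3) K) • cr (D f1) (D g2) +
          (C (c1 * c3 - c2) : MvPolynomial (Fin 3) K) • cr (D f3) (D g2)) := by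
      rw [D_add, D_add, D_Cmul, D_Cmul, D_add, D_Cmul, cr_add_left, cr_add_left, cr_add_right,
        cr_smul_left, cr_smul_left, cr_add_right, cr_add_right, cr_smul_right, cr_smul_right,
        cr_smul_right, cr_self, cr_self, cr_anti (D g2) (D f3)]
      simp only [smul_zero, add_zero, zero_add, smul_neg, smul_smul, map_sub, map_mul, sub_smul]
      abel
    have e3 : dv w ((C c3 : MvPolynomial (Fin 3) K) • cr (D f1) (D g2)) ≤ br w f1 g2 := by
      have := F.v.smul_le (C c3) (cr (D f1) (D g2))
      rw [F.d.const] at this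
      change _ ≤ 0 + br w f1 g2 at this
      linarith
    have e4 : dv w ((C (c1 * c3 - c2) : MvPolynomial (Fin 3) K) • cr (D f3) (D g2)) ≤
        br w f3 g2 := by
      have := F.v.smul_le (C (c1 * c3 - c2)) (cr (D f3) (D g2))
      rw [F.d.const] at this
      change _ ≤ 0 + br w f3 g2 at this
      linarith
    have e5 : br w (f1 + C c1 * f3 + C c2 * g2) (f3 + C c3 * g2) ≤ br w f1 g2 := by
      rw [br_def (f1 + C c1 * f3 + C c2 * g2), e2]
      refine le_trans (F.v.add_le _ _) (max_le ?_ (le_trans (F.v.add_le _ _) (max_le ?_ ?_)))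
      · change br w f1 f3 ≤ _
        linarith
      · exact e3
      · linarith
    rw [e1] at k1
    linarith

/-- module D22 -/
theorem d22 (F : Facts K w) (S : SuAll K w) (hI : InvStatement K w) (hK : KFactStatement K w)
    (hBs : BstarStatement K w) : D22Statement K w := by
  intro f1 f2 f3 c P P' p γ hgood hc hγ hpo hp3 h1 h3 hlt hmin hdeg hdeg' hle' hres hnb
  have hpR : (3 : ℝ) ≤ p := by exact_mod_cast hp3
  have hA3 : 3 * γ ≤ p * γ := mul_le_mul_of_nonneg_right hpR hγ.le
  have hfr := hgood.fr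
  have hcp : Nat.Coprime p 2 := (Nat.coprime_two_right).mpr hpo
  have hb2p : 0 < br w f1 f3 := F.b.bpos f1 f3 f2 hfr.swap23
  have hd12 := hgood.d12
  have hd23 := hgood.d23
  rw [h3] at hd23
  have hd12' : dg w f2 < p * γ := by rw [← h1]; exact hd12
  have hPd := dg_of_lt F.d hlt
  -- the first move
  obtain ⟨p', q', m, γ', hsu⟩ := S.su f1 f3 P hb2p hdeg
  obtain ⟨rfl, rfl, rfl⟩ := coprime_pair hγ hsu.hγ (by rw [← h1, hsu.df])
    (by rw [← hsu.dg', h3]; simp) hcp hsu.cop (by norm_num) hsu.hq
  obtain ⟨i, j, hv, hlow⟩ := S.low f1 f3 P _ _ m γ' hsu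
  have hm : (1 : ℝ) ≤ m := by exact_mod_cast hsu.hm
  have hij : 0 ≤ ((i : ℝ) * p' + j * (2 : ℕ)) * γ' := by positivity
  have hb2 : (p' - 2) * γ' + br w f1 f3 ≤ dg w f2 := by
    rw [hPd] at hlow
    have e : ((p' : ℝ) * (2 : ℕ) - p' - (2 : ℕ)) * γ' = (p' - 2) * γ' := by push_cast; ring
    rw [e] at hlow
    have : 1 * ((p' - 2) * γ' + br w f1 f3) ≤ m * ((p' - 2) * γ' + br w f1 f3) :=
      mul_le_mul_of_nonneg_right hm (by nlinarith)
    linarith
  have hA : ((p' : ℝ) - 2) * γ' = p' * γ' - 2 * γ' := by ring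
  rw [hA] at hb2
  have hb2' : br w f1 f3 < 2 * γ' := by linarith
  -- the second move: `b1 < 2γ`
  have hd1' : dg w (f1 + C c * f2) = p' * γ' := by
    rw [F.d.add_left _ _ (by rw [F.d.Cmul c _ hc]; exact hd12), h1]
  have hfr' : Fr (f1 + C c * f2) f2 f3 := by
    have := hfr.elem1 (C c * X 0)
    rwa [ev_mul, ev_C, ev_X0] at this
  have hb2p' : 0 < br w (f1 + C c * f2) f3 := F.b.bpos _ _ f2 hfr'.swap23
  have hb1 : br w f2 f3 < 2 * γ' := by
    obtain ⟨p2, q2, γ2, hγ2, hp2, hq2, hcop2, hf2, hg2, hlow2, -⟩ := su_low S hb2p' hdeg'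
    obtain ⟨rfl, rfl, rfl⟩ := coprime_pair hγ hγ2 (by rw [← hd1', hf2])
      (by rw [← hg2, h3]; simp) hcp hcop2 (by norm_num) hq2
    have e : ((p2 : ℝ) * (2 : ℕ) - p2 - (2 : ℕ)) * γ2 = p2 * γ2 - 2 * γ2 := by push_cast; ring
    rw [e] at hlow2
    have h5 := hlow2 (by linarith)
    have h6 : br w (f1 + C c * f2) f3 < 2 * γ2 := by linarith
    by_contra hcon
    have hcon' := not_lt.mp hcon
    have e1 : dv w ((C c : MvPolynomial (Fin 3) K) • cr (D f2) (D f3)) = br w f2 f3 :=
      F.v.Csmul _ _ hc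
    rw [br_def, D_add, D_Cmul, cr_add_left, cr_smul_left, F.v.add_right _ _
      (by rw [e1]; change br w f1 f3 < _; linarith), e1] at h6
    linarith
  -- the bracket of `g2, f3`
  have hF : p' * γ' ≤ dg w (ev (pderiv 0 P) f1 f3) := by
    have h5 := hsu.low 1 0 (by have := hsu.hm; omega)
    have e : ev (pd 1 0 P) f1 f3 = ev (pderiv 0 P) f1 f3 := rfl
    rw [e, hv] at h5
    push_cast at h5
    have h6 : 0 ≤ ((m : ℝ) - 1) * ((p' * γ' - 2 * γ') + br w f1 f3) :=
      mul_nonneg (by linarith) (by linarith)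
    push_cast at hij
    nlinarith
  have hFne : ev (pderiv 0 P) f1 f3 ≠ 0 := by
    have := hsu.ne 1 0 (by have := hsu.hm; omega)
    exact this
  have hvec : dv w (ev (pderiv 0 P) f1 f3 • cr (D f1) (D f3)) =
      dg w (ev (pderiv 0 P) f1 f3) + br w f1 f3 :=
    F.v.smul _ _ hFne (F.b.cne f1 f3 f2 hfr.swap23)
  have hB1e : br w (f2 + ev P f1 f3) f3 = dg w (ev (pderiv 0 P) f1 f3) + br w f1 f3 := by
    rw [br_def, cr_elem0, F.v.add_right _ _ (by rw [hvec]; change br w f2 f3 < _; linarith), hvec]
  have hfr2 : Fr f1 (f2 + ev P f1 f3) f3 := hfr.elem2 P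
  set g2 := f2 + ev P f1 f3 with hg2
  have hB1 : p' * γ' + br w f1 f3 ≤ br w g2 f3 := by linarith
  have hlo : p' * γ' - 2 * γ' + br w f1 f3 ≤ dg w g2 := by
    have := F.b.le g2 f3
    rw [h3] at this
    linarith
  have hB3 : br w f1 g2 = (p' - 2) * γ' + br w g2 f3 := by
    rw [hA]
    have t1 := F.b.two f1 g2 f3 hfr2
    have t2 := F.b.two f3 f1 g2 hfr2.rot'
    rw [h1, h3] at t1
    rw [h1, h3, F.b.comm f3 g2, F.b.comm f3 f1] at t2
    rcases t1 with t1 | t1
    · linarith
    · rcases t2 with t2 | t2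
      · linarith
      · linarith
  have hpos2 : 0 < dg w g2 := by linarith
  rcases lt_trichotomy (dg w g2) (2 * γ') with hlt2 | heq | hgt
  · -- `p = 3`
    have hp : p' = 3 := by
      have h7 : (p' : ℝ) * γ' < 4 * γ' := by linarith
      have h8 : (p' : ℝ) < 4 := lt_of_mul_lt_mul_right h7 hγ.le
      have h9 : p' < 4 := by exact_mod_cast h8
      omega
    subst hp
    push_cast at *
    rw [sp3_swap23]
    refine d22_down F S hI hK hBs hfr2.swap23 hγ h1 h3 hmin hb2' (by linarith)
      (by rw [F.b.comm f3 g2]; linarith) (by rw [F.b.comm f3 g2]; linarith) hlt2 ?_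
    intro V' hV'
    rw [← sp3_swap23] at hV'
    exact hnb V' hV'
  · exact absurd (by rw [heq, h3]; simp) (min_ne_pow F.d hpos2 hmin 0 1)
  · exact d22_up F S hI hK hfr2 hγ hpo hp3 h1 h3 hmin (by linarith) (by linarith) hb2' hB1 hB3 hgt

end

end Pool.Agent.Lib.MP_e1f7e2_al.SU.H62
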