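import Pool.Agent.Lib.MP_e1f7e2_al.SU.Iface

set_option autoImplicit false

/-! Tools for the modules D22, X, ... -/

open MvPolynomial

namespace Pool.Agent.Lib.MP_e1f7e2_al.SU.H62

section

variable {K : Type*} [Field K] {w : Fin 3 → ℝ}

/-- if a sum is smaller than one summand, the other summand has the same degree -/
lemma dg_of_lt (F : DegFacts K w) {x y : MvPolynomial (Fin 3) K} (h : dg w (x + y) < dg w x) :
    dg w y = dg w x := by
  rcases lt_trichotomy (dg w y) (dg w x) with h1 | h1 | h1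
  · have := F.add_left x y h1; linarith
  · exact h1
  · have := F.add_right x y h1; linarith

lemma dg_le_of_le (F : DegFacts K w) {x y : MvPolynomial (Fin 3) K}
    (h : dg w (x + y) ≤ dg w x) : dg w y ≤ dg w x := by
  by_contra h1
  have := F.add_right x y (not_le.mp h1); linarith [not_le.mp h1]

/-- lower bound for degenerate polynomials -/
lemma su_low (S : SuAll K w) {f g : MvPolynomial (Fin 3) K} {P : MvPolynomial (Fin 2) K}
    (hb : 0 < br w f g) (hd : dg w (ev P f g) < vdg (dg w f) (dg w g) P) :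
    ∃ (p q : ℕ) (γ : ℝ), 0 < γ ∧ 1 ≤ p ∧ 1 ≤ q ∧ Nat.Coprime p q ∧ dg w f = p * γ ∧
      dg w g = q * γ ∧ (0 ≤ ((p : ℝ) * q - p - q) * γ + br w f g →
        ((p : ℝ) * q - p - q) * γ + br w f g ≤ dg w (ev P f g)) ∧
      (2 ≤ p → 2 ≤ q → br w f g ≤ dg w (ev P f g)) := by
  obtain ⟨p, q, m, γ, h⟩ := S.su f g P hb hd
  obtain ⟨i, j, -, h2⟩ := S.low f g P p q m γ h
  have hγ := h.hγ
  have hm : (1 : ℝ) ≤ m := by exact_mod_cast h.hm
  have hij : 0 ≤ ((i : ℝ) * p + j * q) * γ := by positivity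
  have key : 0 ≤ ((p : ℝ) * q - p - q) * γ + br w f g →
        ((p : ℝ) * q - p - q) * γ + br w f g ≤ dg w (ev P f g) := by
    intro h0
    nlinarith
  refine ⟨p, q, γ, hγ, h.hp, h.hq, h.cop, h.df, h.dg', key, ?_⟩
  intro hp hq
  have hp' : (2 : ℝ) ≤ p := by exact_mod_cast hp
  have hq' : (2 : ℝ) ≤ q := by exact_mod_cast hq
  have h3 : 0 ≤ ((p : ℝ) * q - p - q) * γ := by
    apply mul_nonneg _ hγ.le
    nlinarith
  have := key (by linarith)
  linarith

/-- nondegenerate polynomials: the degree is the degree of a monomial -/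
lemma nondeg (F : VdFacts K w) (F' : DegFacts K w) {f g : MvPolynomial (Fin 3) K}
    {P : MvPolynomial (Fin 2) K}
    (hd : ¬ dg w (ev P f g) < vdg (dg w f) (dg w g) P) (h0 : 0 < dg w (ev P f g)) :
    ∃ i j : ℕ, (i : ℝ) * dg w f + j * dg w g = dg w (ev P f g) := by
  have hP : P ≠ 0 := by
    rintro rfl
    rw [ev_zero, F'.zero] at h0
    exact lt_irrefl _ h0
  obtain ⟨m, -, hm⟩ := F.att (dg w f) (dg w g) P hP
  have := F.ev_le f g P
  exact ⟨m 0, m 1, by rw [hm]; linarith [not_lt.mp hd]⟩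

/-- identification of the coprime pair -/
lemma coprime_pair {p q p' q' : ℕ} {γ γ' : ℝ} (hγ : 0 < γ) (hγ' : 0 < γ')
    (h1 : (p : ℝ) * γ = p' * γ') (h2 : (q : ℝ) * γ = q' * γ')
    (hc : Nat.Coprime p q) (hc' : Nat.Coprime p' q') (hq : 1 ≤ q) (hq' : 1 ≤ q') :
    p' = p ∧ q' = q ∧ γ' = γ := by
  have h3 : (p : ℝ) * q' = p' * q := by
    have h4 : (p : ℝ) * γ * (q' * γ') = p' * γ' * (q * γ) := by rw [h1, h2]
    have h5 : (γ * γ') * ((p : ℝ) * q' - p' * q) = 0 := by linarith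
    rcases mul_eq_zero.mp h5 with h6 | h6
    · exact absurd h6 (by positivity)
    · linarith
  have h4 : p * q' = p' * q := by exact_mod_cast h3
  have h5 : q ∣ q' := by
    have : q ∣ p * q' := ⟨p', by rw [h4]; ring⟩
    exact (Nat.Coprime.dvd_of_dvd_mul_left hc.symm this)
  have h6 : q' ∣ q := by
    have : q' ∣ p' * q := ⟨p, by rw [← h4]; ring⟩
    exact (Nat.Coprime.dvd_of_dvd_mul_left hc'.symm this)
  have h7 : q' = q := Nat.dvd_antisymm h6 h5
  subst h7
  have h8 : p = p' := Nat.eq_of_mul_eq_mul_right hq h4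
  subst h8
  refine ⟨rfl, rfl, ?_⟩
  have : (0 : ℝ) < q' := by exact_mod_cast hq
  have h9 : (q' : ℝ) * (γ' - γ) = 0 := by linarith
  rcases mul_eq_zero.mp h9 with h | h
  · linarith
  · linarith

/-- bracket as degree of vector -/
lemma br_def (f g : MvPolynomial (Fin 3) K) : br w f g = dv w (cr (D f) (D g)) := rfl

/-- minimal elements are not resonant: if `dg g = dg u > 0` then `g - c u` has smaller degree -/
lemma lead' (F : DegFacts K w) {g u : MvPolynomial (Fin 3) K} (h0 : 0 < dg w g)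
    (h : dg w g = dg w u) : ∃ c : K, dg w (g - C c * u) < dg w g := by
  obtain ⟨c, -, hc⟩ := F.lead g u h0 h
  exact ⟨c, hc⟩

/-- powers of the second generator -/
lemma min_ne_pow (F : DegFacts K w) {g f h : MvPolynomial (Fin 3) K} (h0 : 0 < dg w g)
    (hmin : ∀ R : MvPolynomial (Fin 2) K, dg w g ≤ dg w (g + ev R f h)) (i j : ℕ) :
    dg w g ≠ i * dg w f + j * dg w h := by
  intro he
  by_cases hf : f = 0
  · subst hf
    rw [F.zero, mul_zero, zero_add] at he
    obtain ⟨c, hc⟩ := lead' F h0 (u := h ^ j) (by rw [F.pow]; exact he)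
    have := hmin (- (C c * X 1 ^ j))
    rw [ev_neg, ev_mul, ev_C, ev_pow, ev_X1, ← sub_eq_add_neg] at this
    linarith
  by_cases hh : h = 0
  · subst hh
    rw [F.zero, mul_zero, add_zero] at he
    obtain ⟨c, hc⟩ := lead' F h0 (u := f ^ i) (by rw [F.pow]; exact he)
    have := hmin (- (C c * X 0 ^ i))
    rw [ev_neg, ev_mul, ev_C, ev_pow, ev_X0, ← sub_eq_add_neg] at this
    linarith
  obtain ⟨c, hc⟩ := lead' F h0 (u := f ^ i * h ^ j)
    (by rw [F.mul _ _ (pow_ne_zero _ hf) (pow_ne_zero _ hh), F.pow, F.pow]; exact he)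
  have := hmin (- (C c * (X 0 ^ i * X 1 ^ j)))
  rw [ev_neg, ev_mul, ev_C, ev_mul, ev_pow, ev_pow, ev_X0, ev_X1, ← sub_eq_add_neg] at this
  linarith

end

end Pool.Agent.Lib.MP_e1f7e2_al.SU.H62
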